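import Pool.Agent.W680.WH.Stm

set_option autoImplicit false

open scoped ComplexConjugate InnerProductSpace
open ContinuousLinearMap Filter

namespace Pool.Agent.W856.WH.Dia

open Pool.Agent.W680.WH

lemma co_sub (f g : E) (n : ℤ) : co (f - g) n = co f n - co g n := by
  simp [co, sub_div]

lemma co_neg (f : E) (n : ℤ) : co (-f) n = -co f n := by
  simp [co, neg_div]

lemma co_zero (n : ℤ) : co 0 n = 0 := by simp [co]

noncomputable def xx (n : ℤ) : ℝ := (16 * (n : ℝ) + 8) / ((4 * (n : ℝ) + 1) * (4 * (n : ℝ) + 3))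

lemma ne1 (n : ℤ) : (4 * (n : ℂ) + 1) ≠ 0 := by
  intro h
  have : (4 * n + 1 : ℤ) = 0 := by exact_mod_cast h
  omega

lemma ne3 (n : ℤ) : (4 * (n : ℂ) + 3) ≠ 0 := by
  intro h
  have : (4 * n + 3 : ℤ) = 0 := by exact_mod_cast h
  omega

lemma co_X (hA : S_OPA) (hC : S_OPC) (g : E) (n : ℤ) :
    co (X g) (n + 1) = -(xx n : ℂ) * co g n := by
  have hZ := hC.2.1
  have hZ2 := hC.2.2.2.1
  have hadd := hC.2.2.2.2.1
  have hsm := hC.2.2.2.2.2.1
  have h1 := ne1 n
  have h3 := ne3 n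
  have e1 : ((4 : ℂ) * ((n + 1 : ℤ) : ℂ) - 3) / ((4 : ℂ) * ((n + 1 : ℤ) : ℂ) - 1) =
      (4 * (n : ℂ) + 1) / (4 * (n : ℂ) + 3) := by
    push_cast
    congr 1 <;> ring
  have hQ : ∀ g : E, co (Q g) (n + 1) = (2 / (4 * (n : ℂ) + 3)) * co g n := by
    intro g
    have h : Q g = Z g - Z2 g := rfl
    rw [h, co_sub, hZ, hZ2, add_sub_cancel_right, e1]
    field_simp
    ring
  have hZs : ∀ g : E, co (Zs g) n = ((4 * (n : ℂ) + 3) / (4 * (n : ℂ) + 1)) * co g (n + 1) := by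
    intro g
    have h := hZ2 (Zs g) (n + 1)
    have h' : Z2 (Zs g) = g := by
      have := congrArg (fun A : E →L[ℂ] E => A g) hA.1.2.2.1
      simpa using this
    rw [h', add_sub_cancel_right, e1] at h
    rw [h]
    field_simp
  have h : X g = -((2 : ℂ) • Q g + Q (Zs (Q g))) := rfl
  rw [h, co_neg, hadd, hsm, hQ, hQ, hZs, hQ]
  unfold xx
  push_cast
  field_simp
  ring

lemma co_le (f : E) (m : ℤ) : ‖co f m‖ * Real.sqrt (om m) ≤ ‖f‖ := by
  have h1 : ‖f m‖ ≤ ‖f‖ := lp.norm_apply_le_norm (by norm_num) f m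
  have h2 : 0 < Real.sqrt (om m) := Real.sqrt_pos.2 (om_pos m)
  have h3 : ‖co f m‖ * Real.sqrt (om m) = ‖f m‖ := by
    unfold co
    rw [norm_div, Complex.norm_real, Real.norm_of_nonneg h2.le]
    field_simp
  rw [h3]; exact h1

lemma norm_eb (n : ℤ) : ‖eb n‖ = Real.sqrt (om n) := by
  unfold eb
  rw [lp.norm_single (by norm_num), Complex.norm_real, Real.norm_of_nonneg (Real.sqrt_nonneg _)]

lemma beta_le (hO : S_OM) (G : E →L[ℂ] E) (n j : ℤ) :
    ‖co (G (eb n)) (n + j)‖ ≤ ‖G‖ * Real.sqrt (om j) := by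
  have h1 := co_le (G (eb n)) (n + j)
  have h2 := G.le_opNorm (eb n)
  rw [norm_eb] at h2
  have h3 : om n ≤ om (n + j) * om j := by
    have := hO.2.2.1 (n + j) (-j)
    rwa [add_neg_cancel_right, om_neg] at this
  have h4 : Real.sqrt (om n) ≤ Real.sqrt (om (n + j)) * Real.sqrt (om j) := by
    rw [← Real.sqrt_mul (om_pos _).le]
    exact Real.sqrt_le_sqrt h3
  have h5 : 0 < Real.sqrt (om (n + j)) := Real.sqrt_pos.2 (om_pos _)
  have h6 : ‖co (G (eb n)) (n + j)‖ * Real.sqrt (om (n + j)) ≤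
      (‖G‖ * Real.sqrt (om j)) * Real.sqrt (om (n + j)) := by
    refine (h1.trans h2).trans ?_
    have := mul_le_mul_of_nonneg_left h4 (norm_nonneg G)
    linarith [this, mul_comm (Real.sqrt (om (n + j))) (Real.sqrt (om j)),
      mul_assoc ‖G‖ (Real.sqrt (om j)) (Real.sqrt (om (n + j)))]
  exact le_of_mul_le_mul_right h6 h5

lemma co_F (hA : S_OPA) (hC : S_OPC) (F : E →L[ℂ] E) (hF : F * Z = Z * F) (n : ℤ) :
    ∀ m : ℤ, co (F (eb n)) m = co (F (eb 0)) (m - n) := by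
  have hZ := hC.2.1
  have hZe := hA.2.2.1.1
  have key : ∀ n m : ℤ, co (F (eb (n + 1))) m = co (F (eb n)) (m - 1) := by
    intro n m
    have h := congrArg (fun A : E →L[ℂ] E => A (eb n)) hF
    have h' : F (Z (eb n)) = Z (F (eb n)) := by simpa using h
    rw [← hZe, h', hZ]
  induction n using Int.induction_on with
  | zero => intro m; rw [sub_zero]
  | succ i ih =>
    intro m
    rw [key, ih]
    congr 1
    ring
  | pred i ih =>
    intro m
    have h := key (-(i : ℤ) - 1) (m + 1)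
    rw [sub_add_cancel, add_sub_cancel_right] at h
    rw [← h, ih]
    congr 1
    ring

lemma not_summable_xx (t : ℕ) : ¬ Summable (fun i : ℕ => xx ((t : ℤ) + i)) := by
  intro h
  have h1 : Summable (fun i : ℕ => 1 / (((i + (t + 1) : ℕ) : ℝ))) := by
    refine Summable.of_nonneg_of_le (fun i => by positivity) (fun i => ?_) h
    unfold xx
    push_cast
    rw [div_le_div_iff₀ (by positivity) (by positivity)]
    nlinarith [Nat.cast_nonneg (α := ℝ) i, Nat.cast_nonneg (α := ℝ) t,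
      mul_nonneg (Nat.cast_nonneg (α := ℝ) i) (Nat.cast_nonneg (α := ℝ) t)]
  exact Real.not_summable_one_div_natCast ((summable_nat_add_iff (t + 1)).1 h1)

lemma xx_nonneg (t i : ℕ) : 0 ≤ xx ((t : ℤ) + i) := by
  unfold xx
  push_cast
  positivity

theorem dia (hO : S_OM) (hA : S_OPA) (hC : S_OPC) (hR : S_OPR) (hK : S_KN2) : S_DIA := by
  intro P m k W F l Y B hm hPa hPm hk hW hl hFZ hWF hY hkWY
  have hC0 := hC.1
  have hZ := hC.2.1
  have hadd := hC.2.2.2.2.1
  have hsm := hC.2.2.2.2.2.1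
  have hext := hC.2.2.2.2.2.2.2.2.1
  have hl0 : l ≠ 0 := by
    intro h
    rw [h, norm_zero] at hl
    exact zero_ne_one hl
  have heb : ∀ n : ℤ, eb n ≠ 0 := by
    intro n h
    have := hC0 n n
    rw [h, co_zero, if_pos rfl] at this
    exact zero_ne_one this
  have hF0 : (F : E →L[ℂ] E) ≠ 0 := by
    intro h
    have h1 := F.inv_mul
    rw [h, mul_zero] at h1
    have h2 := congrArg (fun A : E →L[ℂ] E => A (eb 0)) h1
    simp at h2
    exact heb 0 h2.symm
  obtain ⟨k1, ⟨c, hc0, hc⟩, -⟩ := hK P m k W (F : E →L[ℂ] E) l hm hPa hPm hk hW hl hFZ hF0 hWF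
  set N : E →L[ℂ] E := adjoint (F : E →L[ℂ] E) * P * (F : E →L[ℂ] E) with hN
  have hNa : adjoint N = N := by
    rw [hN]
    simp only [ContinuousLinearMap.mul_def, ContinuousLinearMap.adjoint_comp,
      ContinuousLinearMap.adjoint_adjoint, hPa]
    rfl
  set Fi : E →L[ℂ] E := ((F⁻¹ : (E →L[ℂ] E)ˣ) : E →L[ℂ] E) with hFi
  set Y1 : E →L[ℂ] E := Fi * Y * (F : E →L[ℂ] E) with hY1
  have hFiF : Fi * (F : E →L[ℂ] E) = 1 := F.inv_mul
  have hFFi : (F : E →L[ℂ] E) * Fi = 1 := F.mul_inv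
  -- commutation with the rotation
  have hcom : (k : ℂ) • (R k⁻¹ * Y1) = Y1 * R k⁻¹ := by
    have e1 : Fi * (W : E →L[ℂ] E) = l • (R k⁻¹ * Fi) := by
      calc Fi * (W : E →L[ℂ] E) = Fi * ((W : E →L[ℂ] E) * (F : E →L[ℂ] E)) * Fi := by
            rw [mul_assoc, mul_assoc, hFFi, mul_one]
        _ = Fi * (l • ((F : E →L[ℂ] E) * R k⁻¹)) * Fi := by rw [hWF]
        _ = l • ((Fi * (F : E →L[ℂ] E)) * R k⁻¹ * Fi) := by
            rw [mul_smul_comm, smul_mul_assoc]
            simp only [mul_assoc]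
        _ = l • (R k⁻¹ * Fi) := by rw [hFiF, one_mul]
    have e2 : Fi * ((k : ℂ) • ((W : E →L[ℂ] E) * Y)) * (F : E →L[ℂ] E) =
        l • ((k : ℂ) • (R k⁻¹ * Y1)) := by
      rw [mul_smul_comm, smul_mul_assoc, ← mul_assoc, e1, smul_mul_assoc, smul_mul_assoc, hY1,
        smul_comm]
      simp only [mul_assoc]
    have e3 : Fi * (Y * (W : E →L[ℂ] E)) * (F : E →L[ℂ] E) = l • (Y1 * R k⁻¹) := by
      rw [mul_assoc, mul_assoc, hWF, mul_smul_comm, mul_smul_comm, hY1]
      simp only [mul_assoc]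
    rw [hkWY, e3] at e2
    have e4 := congrArg (fun A : E →L[ℂ] E => l⁻¹ • A) e2
    simp only [smul_smul] at e4
    rw [inv_mul_cancel₀ hl0, one_smul, ← mul_assoc, inv_mul_cancel₀ hl0, one_mul] at e4
    exact e4.symm
  have hkne : ∀ n : ℤ, ((k ^ n : Circle) : ℂ) ≠ 0 := fun n => Circle.coe_ne_zero _
  have hdiag : ∀ n m : ℤ, m ≠ n + 1 → co (Y1 (eb n)) m = 0 := by
    intro n m hmn
    have h1 := congrArg (fun A : E →L[ℂ] E => co (A (eb n)) m) hcom
    have h2 : (k : ℂ) * ((((k⁻¹) ^ m : Circle) : ℂ) * co (Y1 (eb n)) m) =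
        (((k⁻¹) ^ n : Circle) : ℂ) * co (Y1 (eb n)) m := by
      have a1 : co (((k : ℂ) • (R k⁻¹ * Y1)) (eb n)) m =
          (k : ℂ) * ((((k⁻¹) ^ m : Circle) : ℂ) * co (Y1 (eb n)) m) := by
        have b1 : ((k : ℂ) • (R k⁻¹ * Y1)) (eb n) = (k : ℂ) • (R k⁻¹ (Y1 (eb n))) := rfl
        rw [b1, hsm, hR.2.2.2.2.2.2]
      have a2 : co ((Y1 * R k⁻¹) (eb n)) m = (((k⁻¹) ^ n : Circle) : ℂ) * co (Y1 (eb n)) m := by
        have b1 : (Y1 * R k⁻¹) (eb n) = Y1 (R k⁻¹ (eb n)) := rfl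
        rw [b1, hR.1, map_smul, hsm]
      rw [← a1, ← a2]
      exact h1
    by_contra hne
    have h3 : (k : ℂ) * (((k⁻¹) ^ m : Circle) : ℂ) = (((k⁻¹) ^ n : Circle) : ℂ) := by
      apply mul_right_cancel₀ hne
      rw [mul_assoc]; exact h2
    have h4 : k * (k⁻¹) ^ m = (k⁻¹) ^ n := by
      apply Subtype.ext
      push_cast
      exact_mod_cast h3
    have h5 : k ^ (1 - m + n) = 1 := by
      rw [inv_zpow, inv_zpow] at h4
      rw [zpow_add, zpow_sub, zpow_one, h4, inv_mul_cancel]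
    exact hk (1 - m + n) (by omega) h5
  have hY1e : ∀ n : ℤ, Y1 (eb n) = co (Y1 (eb n)) (n + 1) • eb (n + 1) := by
    intro n
    apply hext
    intro m
    rw [hsm, hC0]
    by_cases h : m = n + 1
    · rw [if_pos h, mul_one, h]
    · rw [if_neg h, mul_zero, hdiag n m h]
  refine ⟨fun n => (⟪eb n, N (eb n)⟫_ℂ).re, fun n => co (Y1 (eb n)) (n + 1), c, hc0, hc, ?_,
    hY1e, ?_⟩
  · intro n n'
    by_cases h : n = n'
    · rw [if_pos h, ← h]
      have h1 : (⟪eb n, N (eb n)⟫_ℂ).im = 0 := by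
        rw [← Complex.conj_eq_iff_im, inner_conj_symm, ← ContinuousLinearMap.adjoint_inner_right,
          hNa]
      apply Complex.ext
      · simp
      · simpa using h1
    · rw [if_neg h]
      exact k1 n n' h
  · -- nonvanishing
    intro N0
    by_contra hcon
    push Not at hcon
    -- a nonzero coefficient of F
    obtain ⟨j, hj⟩ : ∃ j, co ((F : E →L[ℂ] E) (eb 0)) j ≠ 0 := by
      by_contra hno
      push Not at hno
      have h1 : (F : E →L[ℂ] E) (eb 0) = 0 := by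
        apply hext
        intro n
        rw [hno, co_zero]
      have h2 : Fi ((F : E →L[ℂ] E) (eb 0)) = eb 0 := by
        have := congrArg (fun A : E →L[ℂ] E => A (eb 0)) hFiF
        simpa using this
      rw [h1, map_zero] at h2
      exact heb 0 h2.symm
    set G : E →L[ℂ] E := B * (F : E →L[ℂ] E) with hG
    set β : ℤ → ℂ := fun n => co (G (eb n)) (n + j) with hβ
    have hcF := co_F hA hC (F : E →L[ℂ] E) hFZ
    have heq : ∀ n : ℤ, co (Y1 (eb n)) (n + 1) * co ((F : E →L[ℂ] E) (eb 0)) j =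
        -(xx (n + j) : ℂ) * co ((F : E →L[ℂ] E) (eb 0)) j + β n - β (n + 1) := by
      intro n
      have a1 : (F : E →L[ℂ] E) (Y1 (eb n)) = Y ((F : E →L[ℂ] E) (eb n)) := by
        have : (F : E →L[ℂ] E) * Y1 = Y * (F : E →L[ℂ] E) := by
          rw [hY1, ← mul_assoc, ← mul_assoc, hFFi, one_mul]
        have := congrArg (fun A : E →L[ℂ] E => A (eb n)) this
        simpa using this
      have a2 : Y ((F : E →L[ℂ] E) (eb n)) = X ((F : E →L[ℂ] E) (eb n)) + Z (G (eb n)) -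
          G (eb (n + 1)) := by
        have b1 : Z ((F : E →L[ℂ] E) (eb n)) = (F : E →L[ℂ] E) (eb (n + 1)) := by
          have := congrArg (fun A : E →L[ℂ] E => A (eb n)) hFZ
          have b2 : (F : E →L[ℂ] E) (Z (eb n)) = Z ((F : E →L[ℂ] E) (eb n)) := by simpa using this
          rw [← b2, hA.2.2.1.1]
        rw [hY]
        show X ((F : E →L[ℂ] E) (eb n)) + Z (B ((F : E →L[ℂ] E) (eb n))) -
          B (Z ((F : E →L[ℂ] E) (eb n))) = _
        rw [b1]
        rfl
      have a3 : co ((F : E →L[ℂ] E) (Y1 (eb n))) (n + 1 + j) = co (X ((F : E →L[ℂ] E) (eb n)) +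
          Z (G (eb n)) - G (eb (n + 1))) (n + 1 + j) := by rw [a1, a2]
      rw [hY1e n, map_smul, hsm, hcF (n + 1) (n + 1 + j), co_sub, hadd, hZ] at a3
      have i1 : n + 1 + j - (n + 1) = j := by ring
      have i2 : n + 1 + j - 1 = n + j := by ring
      have i3 : n + 1 + j = (n + j) + 1 := by ring
      rw [i1, i2] at a3
      rw [i3, co_X hA hC, hcF n (n + j), ← i3] at a3
      have i4 : n + j - n = j := by ring
      rw [i4] at a3
      exact a3
    set Fj := co ((F : E →L[ℂ] E) (eb 0)) j with hFj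
    have hb : ∀ n, ‖β n‖ ≤ ‖G‖ * Real.sqrt (om j) := fun n => beta_le hO G n j
    set N1 : ℤ := max N0 (-j) with hN1
    have hN1a : N0 ≤ N1 := le_max_left _ _
    have hN1b : -j ≤ N1 := le_max_right _ _
    obtain ⟨t, ht⟩ : ∃ t : ℕ, N1 + j = t := ⟨(N1 + j).toNat, by omega⟩
    have hstep : ∀ i : ℕ, ((xx ((t : ℤ) + i) : ℝ) : ℂ) * Fj = β (N1 + i) - β (N1 + (i + 1 : ℕ)) := by
      intro i
      have h1 := heq (N1 + i)
      rw [hcon (N1 + i) (by omega), zero_mul] at h1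
      have h2 : N1 + (i : ℤ) + j = (t : ℤ) + i := by omega
      have h3 : N1 + (i : ℤ) + 1 = N1 + ((i + 1 : ℕ) : ℤ) := by push_cast; ring
      rw [h2, h3] at h1
      linear_combination h1
    have hsum : ∀ M : ℕ, ∑ i ∈ Finset.range M, xx ((t : ℤ) + i) ≤
        2 * (‖G‖ * Real.sqrt (om j)) / ‖Fj‖ := by
      intro M
      have h1 : ((∑ i ∈ Finset.range M, xx ((t : ℤ) + i) : ℝ) : ℂ) * Fj =
          β (N1 + (0 : ℕ)) - β (N1 + M) := by
        rw [← Finset.sum_range_sub' (fun i : ℕ => β (N1 + i)) M]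
        push_cast
        rw [Finset.sum_mul]
        apply Finset.sum_congr rfl
        intro i _
        have := hstep i
        push_cast at this
        exact this
      have h2 := congrArg norm h1
      rw [norm_mul, Complex.norm_real, Real.norm_of_nonneg
        (Finset.sum_nonneg fun i _ => xx_nonneg t i)] at h2
      have h3 : ‖β (N1 + (0 : ℕ)) - β (N1 + M)‖ ≤ 2 * (‖G‖ * Real.sqrt (om j)) := by
        refine (norm_sub_le _ _).trans ?_
        linarith [hb (N1 + (0 : ℕ)), hb (N1 + M)]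
      rw [le_div_iff₀ (norm_pos_iff.2 hj), h2]
      exact h3
    exact not_summable_xx t (summable_of_sum_range_le (fun i => xx_nonneg t i) hsum)

end Pool.Agent.W856.WH.Dia
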